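import Pool.Agent.ROB.Main

/-!
For every `n ≥ 2`, every bounded Lipschitz domain `Ω ⊆ ℝ^n`, every `α < 0` and every `R > 0` with
`|∂Ω| ≤ |∂B_R|`, the first Robin eigenvalues satisfy `λ₁^α(Ω) ≤ λ₁^α(B_R)`: the ball maximises the
first Robin eigenvalue with negative parameter among domains of prescribed surface area.
-/

open MeasureTheory

namespace Pool.Agent.Results.MP_7b7880_an.BallMaximises

open Pool.Agent.ROB

/-- The ball maximises the first Robin eigenvalue (negative parameter) at fixed surface area. -/
theorem result (n : ℕ) (hn : 2 ≤ n) (Ω : Set (E n)) (hΩ : IsLipDomain Ω) (α : ℝ) (hα : α < 0)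
    (R : ℝ) (hR : 0 < R)
    (hS : (Measure.euclideanHausdorffMeasure (n - 1) : Measure (E n)) (frontier Ω) ≤
      (Measure.euclideanHausdorffMeasure (n - 1) : Measure (E n)) (Metric.sphere (0 : E n) R)) :
    robinEigenvalue α Ω ≤ robinEigenvalue α (Metric.ball (0 : E n) R) :=
  main n hn Ω hΩ α hα R hR hS

end Pool.Agent.Results.MP_7b7880_an.BallMaximises
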